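import Mathlib

/-!
# Powers of weighted edge ideals of admissible trees need not be Cohen-Macaulay

The weighted path `x₁ x₂ x₃ x₄` with whiskers `x_i y_i`, edge weights
`ω(x₁x₂) = 3, ω(x₂x₃) = 2, ω(x₃x₄) = 4` and whisker weights `6, 6, 8, 8` is admissible, but the
fifth power of its weighted edge ideal has an embedded associated prime (witness
`x₁⁸ x₂⁹ x₃⁸ x₄⁸`), hence is not Cohen-Macaulay, over every field.
-/

set_option linter.unusedSimpArgs false
set_option linter.unusedTactic false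

namespace Pool.Agent.Results.MP_5c8d7a_al.NotCM

open MvPolynomial

/-- The weighted edge ideal `I(G_ω) = ((uv)^{ω(uv)} : uv ∈ E(G))` in `K[V(G)]`. -/
noncomputable def wideal (K : Type*) [Field K] {V : Type*} (G : SimpleGraph V)
    (ω : Sym2 V → ℕ) : Ideal (MvPolynomial V K) :=
  Ideal.span {f | ∃ u v : V, G.Adj u v ∧ f = (X u * X v) ^ ω s(u, v)}

/-- A local ring is Cohen-Macaulay: its maximal ideal contains a regular sequence whose length
is the Krull dimension. -/
def IsCMLocal (A : Type*) [CommRing A] [IsLocalRing A] : Prop :=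
  ∃ rs : List A, (∀ r ∈ rs, r ∈ IsLocalRing.maximalIdeal A) ∧
    RingTheory.Sequence.IsRegular A rs ∧ (rs.length : WithBot ℕ∞) = ringKrullDim A

/-- A (Noetherian) ring is Cohen-Macaulay: all its localizations at primes are. -/
def IsCM (A : Type*) [CommRing A] : Prop :=
  ∀ (p : Ideal A) [p.IsPrime], IsCMLocal (Localization.AtPrime p)

/-- Admissible weighted trees. -/
structure Admissible {V : Type*} (G : SimpleGraph V) (ω : Sym2 V → ℕ) : Prop where
  /-- `G` is a tree -/
  tree : G.IsTree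
  /-- the weights of the edges are positive -/
  pos : ∀ u v, G.Adj u v → 0 < ω s(u, v)
  /-- the perfect matching `x_i y_i`, where every `y_i` is a leaf, and the inequalities -/
  matching : ∃ (t : ℕ) (x y : Fin t → V), Function.Bijective (Sum.elim x y) ∧
    (∀ i, G.Adj (x i) (y i)) ∧ (∀ i v, G.Adj (y i) v → v = x i) ∧
    (∀ i j, G.Adj (x i) (x j) →
      2 * ω s(x i, x j) ≤ min (ω s(x i, y i)) (ω s(x j, y j))) ∧
    (∀ i j k, i ≠ k → G.Adj (x i) (x j) → G.Adj (x j) (x k) →
      ω s(x i, x j) ≠ ω s(x j, x k) ∧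
      (ω s(x i, x j) < ω s(x j, x k) →
        (ω s(x i, x j) : ℤ) *
            ⌈(ω s(x j, x k) : ℚ) / ((ω s(x j, x k) : ℚ) - (ω s(x i, x j) : ℚ))⌉ ≤
          (ω s(x i, y i) : ℤ) ∧
        (ω s(x j, x k) : ℤ) *
            (⌈(ω s(x j, x k) : ℚ) / ((ω s(x j, x k) : ℚ) - (ω s(x i, x j) : ℚ))⌉ - 2) ≤
          (ω s(x k, y k) : ℤ)))

/-! ### Associated primes of a Cohen-Macaulay ring are minimal -/

lemma not_cm_of_ass {A : Type*} [CommRing A] (Q : Ideal A)
    (hQ : IsAssociatedPrime Q A) (h : ∃ P : Ideal A, P.IsPrime ∧ P < Q) : ¬ IsCM A := by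
  intro hcm
  have := hQ.isPrime
  obtain ⟨rs, hrs, hreg, hlen⟩ := hcm Q
  have hnil : rs = [] := by
    cases rs with
    | nil => rfl
    | cons r rs' =>
      exfalso
      have hr : IsSMulRegular (Localization.AtPrime Q) r :=
        ((RingTheory.Sequence.isWeaklyRegular_cons_iff _ _ _).1 hreg.toIsWeaklyRegular).1
      have hrm := hrs r (by simp)
      obtain ⟨a, ha⟩ := hQ.2
      obtain ⟨⟨b, s⟩, hb⟩ := IsLocalization.surj Q.primeCompl r
      simp only at hb
      have hbQ : b ∈ Q := by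
        have h1 : algebraMap A (Localization.AtPrime Q) b ∈
            IsLocalRing.maximalIdeal (Localization.AtPrime Q) := by
          rw [← hb]
          exact Ideal.mul_mem_right _ _ hrm
        exact (IsLocalization.AtPrime.to_map_mem_maximal_iff _ Q b).1 h1
      obtain ⟨k, hba⟩ : ∃ k : ℕ, b ^ k * a = 0 := by
        rw [ha] at hbQ
        obtain ⟨k, hk⟩ := hbQ
        exact ⟨k, by simpa [Submodule.mem_colon_singleton] using hk⟩
      have hra : r ^ k • (algebraMap A (Localization.AtPrime Q) a) = 0 := by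
        have h2 : (algebraMap A (Localization.AtPrime Q) s) ^ k *
            (r ^ k * (algebraMap A (Localization.AtPrime Q) a)) = 0 := by
          rw [← mul_assoc, ← mul_pow, mul_comm (algebraMap A _ (s : A)) r, hb, ← map_pow,
            ← map_mul, hba, map_zero]
        have h3 := (IsLocalization.map_units (Localization.AtPrime Q) s).pow k
        simpa using (h3.mul_right_eq_zero).1 h2
      have ha0 : algebraMap A (Localization.AtPrime Q) a = 0 := by
        apply hr.pow k
        simpa using hra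
      rw [IsLocalization.map_eq_zero_iff Q.primeCompl] at ha0
      obtain ⟨m, hm⟩ := ha0
      have hmem : (m : A) ∈ (Submodule.colon (⊥ : Submodule A A) {a}).radical :=
        Ideal.le_radical (by simpa [Submodule.mem_colon_singleton] using hm)
      rw [← ha] at hmem
      exact m.2 hmem
  rw [hnil] at hlen
  rw [IsLocalization.AtPrime.ringKrullDim_eq_height Q (Localization.AtPrime Q)] at hlen
  have h0 : Q.height = 0 := by
    have : ((0 : ℕ∞) : WithBot ℕ∞) = (Q.height : WithBot ℕ∞) := by simpa using hlen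
    exact (WithBot.coe_injective this).symm
  obtain ⟨P, hP, hPQ⟩ := h
  have h1 := Ideal.height_add_one_le_of_lt_of_isPrime hPQ
  rw [h0] at h1
  simp at h1

/-- an element killed by `x` and `y`, while no minimal prime contains both -/
lemma not_cm_of_elt {A : Type*} [CommRing A] [IsNoetherianRing A] (u x y : A) (hu : u ≠ 0)
    (hx : x * u = 0) (hy : y * u = 0)
    (h : ∀ Q : Ideal A, Q.IsPrime → x ∈ Q → y ∈ Q → ∃ P : Ideal A, P.IsPrime ∧ P < Q) :
    ¬ IsCM A := by
  obtain ⟨Q, hQ, hle⟩ := exists_le_isAssociatedPrime_of_isNoetherianRing A u hu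
  refine not_cm_of_ass Q hQ (h Q hQ.isPrime (hle ?_) (hle ?_))
  · simpa [Submodule.mem_colon_singleton] using hx
  · simpa [Submodule.mem_colon_singleton] using hy

/-! ### The weighted tree -/

/-- the weights: vertices `0,1,2,3` are `x₁,…,x₄`, vertices `4,5,6,7` are `y₁,…,y₄` -/
def w (u v : Fin 8) : ℕ :=
  match u.1, v.1 with
  | 0, 1 => 3
  | 1, 0 => 3
  | 1, 2 => 2
  | 2, 1 => 2
  | 2, 3 => 4
  | 3, 2 => 4
  | 0, 4 => 6
  | 4, 0 => 6
  | 1, 5 => 6
  | 5, 1 => 6
  | 2, 6 => 8
  | 6, 2 => 8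
  | 3, 7 => 8
  | 7, 3 => 8
  | _, _ => 0

lemma w_symm : ∀ u v, w u v = w v u := by decide

/-- the weight function -/
def ω : Sym2 (Fin 8) → ℕ := Sym2.lift ⟨w, w_symm⟩

/-- the tree -/
def G : SimpleGraph (Fin 8) where
  Adj u v := w u v ≠ 0
  symm := ⟨fun u v h => by rwa [w_symm]⟩
  loopless := ⟨by decide⟩

instance : DecidableRel G.Adj := fun u v => inferInstanceAs (Decidable (w u v ≠ 0))

lemma conn : G.Connected := by
  have h01 : G.Reachable 0 1 := SimpleGraph.Adj.reachable (by decide)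
  have h12 : G.Reachable 1 2 := SimpleGraph.Adj.reachable (by decide)
  have h23 : G.Reachable 2 3 := SimpleGraph.Adj.reachable (by decide)
  have h04 : G.Reachable 0 4 := SimpleGraph.Adj.reachable (by decide)
  have h15 : G.Reachable 1 5 := SimpleGraph.Adj.reachable (by decide)
  have h26 : G.Reachable 2 6 := SimpleGraph.Adj.reachable (by decide)
  have h37 : G.Reachable 3 7 := SimpleGraph.Adj.reachable (by decide)
  have key : ∀ v, G.Reachable 0 v := by
    intro v
    fin_cases v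
    · exact SimpleGraph.Reachable.refl _
    · exact h01
    · exact h01.trans h12
    · exact (h01.trans h12).trans h23
    · exact h04
    · exact h01.trans h15
    · exact (h01.trans h12).trans h26
    · exact ((h01.trans h12).trans h23).trans h37
  rw [SimpleGraph.connected_iff]
  exact ⟨fun u v => (key u).symm.trans (key v), ⟨0⟩⟩

lemma tree : G.IsTree := by
  rw [SimpleGraph.isTree_iff_connected_and_card]
  refine ⟨conn, ?_⟩
  rw [Nat.card_eq_fintype_card, Nat.card_eq_fintype_card, ← SimpleGraph.edgeFinset_card]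
  decide

lemma ceil1 : ⌈(3 : ℚ) / (3 - 2)⌉ = 3 := by norm_num

lemma ceil2 : ⌈(4 : ℚ) / (4 - 2)⌉ = 2 := by norm_num

lemma adm : Admissible G ω where
  tree := tree
  pos u v h := Nat.pos_of_ne_zero h
  matching := by
    refine ⟨4, ![0, 1, 2, 3], ![4, 5, 6, 7], ?_, ?_, ?_, ?_, ?_⟩
    · decide
    · decide
    · decide
    · intro i j
      fin_cases i <;> fin_cases j <;> decide
    · intro i j k hik hij hjk
      fin_cases i <;> fin_cases j <;> fin_cases k <;>
        first
        | (exfalso; revert hij; decide)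
        | (exfalso; revert hjk; decide)
        | (exfalso; revert hik; decide)
        | (refine ⟨by decide, fun h => ?_⟩
           first
           | (exfalso; revert h; decide)
           | (simp only [ω, Sym2.lift_mk, w]
              norm_num [ceil1, ceil2]))

/-! ### The powers of the ideal -/

section ideal

variable (K : Type*) [Field K]

/-- exponents dominating a sum of `n` generator exponents -/
def T (n : ℕ) : Set (Fin 8 →₀ ℕ) :=
  {d | ∃ a b c e f g h : ℕ, a + b + c + e + f + g + h = n ∧ 3 * a + 6 * e ≤ d 0 ∧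
    3 * a + 2 * b + 6 * f ≤ d 1 ∧ 2 * b + 4 * c + 8 * g ≤ d 2 ∧ 4 * c + 8 * h ≤ d 3 ∧
    6 * e ≤ d 4 ∧ 6 * f ≤ d 5 ∧ 8 * g ≤ d 6 ∧ 8 * h ≤ d 7}

/-- the monomial ideal of `T n` -/
noncomputable def J (n : ℕ) : Ideal (MvPolynomial (Fin 8) K) :=
  Ideal.span ((fun d => monomial d (1 : K)) '' T n)

lemma T_one (u v : Fin 8) (h : G.Adj u v) :
    (Finsupp.single u (w u v) + Finsupp.single v (w u v)) ∈ T 1 := by
  fin_cases u <;> fin_cases v <;>
    first
    | (exfalso; revert h; decide)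
    | (refine ⟨1, 0, 0, 0, 0, 0, 0, ?_⟩; simp [w]; done)
    | (refine ⟨0, 1, 0, 0, 0, 0, 0, ?_⟩; simp [w]; done)
    | (refine ⟨0, 0, 1, 0, 0, 0, 0, ?_⟩; simp [w]; done)
    | (refine ⟨0, 0, 0, 1, 0, 0, 0, ?_⟩; simp [w]; done)
    | (refine ⟨0, 0, 0, 0, 1, 0, 0, ?_⟩; simp [w]; done)
    | (refine ⟨0, 0, 0, 0, 0, 1, 0, ?_⟩; simp [w]; done)
    | (refine ⟨0, 0, 0, 0, 0, 0, 1, ?_⟩; simp [w]; done)

lemma gen_eq (u v : Fin 8) (k : ℕ) : ((X u * X v) ^ k : MvPolynomial (Fin 8) K) =
    monomial (Finsupp.single u k + Finsupp.single v k) 1 := by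
  rw [mul_pow, X_pow_eq_monomial, X_pow_eq_monomial, monomial_mul, mul_one]

lemma wideal_le : wideal K G ω ≤ J K 1 := by
  rw [wideal, Ideal.span_le]
  rintro f ⟨u, v, huv, rfl⟩
  have : ω s(u, v) = w u v := rfl
  rw [this, gen_eq]
  exact Ideal.subset_span ⟨_, T_one u v huv, rfl⟩

lemma T_add {m n : ℕ} {d d' : Fin 8 →₀ ℕ} (h : d ∈ T m) (h' : d' ∈ T n) : d + d' ∈ T (m + n) := by
  obtain ⟨a, b, c, e, f, g, k, h0, h1, h2, h3, h4, h5, h6, h7, h8⟩ := h
  obtain ⟨a', b', c', e', f', g', k', h0', h1', h2', h3', h4', h5', h6', h7', h8'⟩ := h'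
  refine ⟨a + a', b + b', c + c', e + e', f + f', g + g', k + k', ?_, ?_, ?_, ?_, ?_, ?_, ?_, ?_,
    ?_⟩ <;> (try simp only [Finsupp.add_apply]) <;> omega

lemma J_mul (m n : ℕ) : J K m * J K n ≤ J K (m + n) := by
  rw [J, J, Ideal.span_mul_span', Ideal.span_le]
  rintro _ ⟨_, ⟨d, hd, rfl⟩, _, ⟨d', hd', rfl⟩, rfl⟩
  simp only [monomial_mul, mul_one]
  exact Ideal.subset_span ⟨_, T_add hd hd', rfl⟩

lemma pow_le (n : ℕ) : (wideal K G ω) ^ (n + 1) ≤ J K (n + 1) := by
  induction n with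
  | zero => simpa using wideal_le K
  | succ n ih =>
    rw [pow_succ]
    exact (Ideal.mul_mono ih (wideal_le K)).trans (J_mul K _ _)

/-- the witness `x₁⁸ x₂⁹ x₃⁸ x₄⁸ y₁⁵` -/
noncomputable def wit : MvPolynomial (Fin 8) K := X 0 ^ 8 * X 1 ^ 9 * X 2 ^ 8 * X 3 ^ 8 * X 4 ^ 5

lemma wit_notMem : wit K ∉ (wideal K G ω) ^ 5 := by
  intro h
  have h1 := pow_le K 4 h
  rw [wit, J, X_pow_eq_monomial, X_pow_eq_monomial, X_pow_eq_monomial, X_pow_eq_monomial,
    X_pow_eq_monomial, monomial_mul, monomial_mul, monomial_mul, monomial_mul,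
    mem_ideal_span_monomial_image] at h1
  obtain ⟨d, ⟨a, b, c, e, f, g, k, h0, h1, h2, h3, h4, h5, h6, h7, h8⟩, hle⟩ := h1
    (Finsupp.single 0 8 + Finsupp.single 1 9 + Finsupp.single 2 8 + Finsupp.single 3 8 +
      Finsupp.single 4 5) (by simp)
  have e0 := hle 0
  have e1 := hle 1
  have e2 := hle 2
  have e3 := hle 3
  have e4 := hle 4
  have e5 := hle 5
  have e6 := hle 6
  have e7 := hle 7
  simp at e0 e1 e2 e3 e4 e5 e6 e7
  omega

lemma gen_mem {u v : Fin 8} (h : G.Adj u v) : ((X u * X v) ^ w u v : MvPolynomial (Fin 8) K) ∈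
    wideal K G ω := Ideal.subset_span ⟨u, v, h, rfl⟩

lemma x_mul_mem : X 0 * wit K ∈ (wideal K G ω) ^ 5 := by
  have h1 := gen_mem K (u := 0) (v := 1) (by decide)
  have h2 := gen_mem K (u := 2) (v := 3) (by decide)
  have h3 : (((X 0 * X 1) ^ w 0 1) ^ 3 * ((X 2 * X 3) ^ w 2 3) ^ 2 : MvPolynomial (Fin 8) K) ∈
      (wideal K G ω) ^ (3 + 2) := by
    rw [pow_add]
    exact Ideal.mul_mem_mul (Ideal.pow_mem_pow h1 3) (Ideal.pow_mem_pow h2 2)
  have h4 : X 0 * wit K =
      (((X 0 * X 1) ^ w 0 1) ^ 3 * ((X 2 * X 3) ^ w 2 3) ^ 2) * X 4 ^ 5 := by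
    have e1 : w 0 1 = 3 := rfl
    have e2 : w 2 3 = 4 := rfl
    rw [e1, e2, wit]
    ring
  rw [h4]
  exact Ideal.mul_mem_right _ _ h3

lemma y_mul_mem : X 4 * wit K ∈ (wideal K G ω) ^ 5 := by
  have h1 := gen_mem K (u := 0) (v := 4) (by decide)
  have h2 := gen_mem K (u := 1) (v := 2) (by decide)
  have h3 : (((X 0 * X 4) ^ w 0 4) * ((X 1 * X 2) ^ w 1 2) ^ 4 : MvPolynomial (Fin 8) K) ∈
      (wideal K G ω) ^ (1 + 4) := by
    rw [pow_add, pow_one]
    exact Ideal.mul_mem_mul h1 (Ideal.pow_mem_pow h2 4)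
  have h4 : X 4 * wit K =
      (((X 0 * X 4) ^ w 0 4) * ((X 1 * X 2) ^ w 1 2) ^ 4) * (X 0 ^ 2 * X 1 * X 3 ^ 8) := by
    have e1 : w 0 4 = 6 := rfl
    have e2 : w 1 2 = 2 := rfl
    rw [e1, e2, wit]
    ring
  rw [h4]
  exact Ideal.mul_mem_right _ _ h3

/-- kill the variables in `s` -/
noncomputable def kl (s : Set (Fin 8)) [DecidablePred (· ∈ s)] :
    MvPolynomial (Fin 8) K →ₐ[K] MvPolynomial (Fin 8) K :=
  aeval (fun i => if i ∈ s then 0 else X i)

lemma ker_le (s : Set (Fin 8)) [DecidablePred (· ∈ s)] (P : Ideal (MvPolynomial (Fin 8) K))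
    (hs : ∀ i ∈ s, X i ∈ P) : RingHom.ker (kl K s) ≤ P := by
  intro f hf
  rw [RingHom.mem_ker] at hf
  have h1 : (Ideal.Quotient.mkₐ K P).comp (kl K s) = Ideal.Quotient.mkₐ K P := by
    apply algHom_ext
    intro i
    simp only [AlgHom.comp_apply, kl, aeval_X]
    split_ifs with hi
    · rw [map_zero]
      exact (Ideal.Quotient.eq_zero_iff_mem.2 (hs i hi)).symm
    · rfl
  have h2 := DFunLike.congr_fun h1 f
  rw [AlgHom.comp_apply, hf, map_zero] at h2
  exact Ideal.Quotient.eq_zero_iff_mem.1 h2.symm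

lemma nbr4 : ∀ v, G.Adj 4 v → v = 0 := by decide

lemma nbr4' : ∀ v, G.Adj v 4 → v = 0 := by decide

theorem notCM : ¬ IsCM (MvPolynomial (Fin 8) K ⧸ (wideal K G ω) ^ 5) := by
  classical
  set I := wideal K G ω with hI
  set mk := Ideal.Quotient.mk (I ^ 5) with hmk
  apply not_cm_of_elt (mk (wit K)) (mk (X 0)) (mk (X 4))
  · rw [Ne, Ideal.Quotient.eq_zero_iff_mem]
    exact wit_notMem K
  · rw [← map_mul, Ideal.Quotient.eq_zero_iff_mem]
    exact x_mul_mem K
  · rw [← map_mul, Ideal.Quotient.eq_zero_iff_mem]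
    exact y_mul_mem K
  · intro Q hQ h0 h4
    have hprime : (Ideal.comap mk Q).IsPrime := Ideal.IsPrime.comap mk
    have hIP : I ≤ Ideal.comap mk Q := by
      intro f hf
      have h5 : f ^ 5 ∈ Ideal.comap mk Q := by
        rw [Ideal.mem_comap, Ideal.Quotient.eq_zero_iff_mem.2 (Ideal.pow_mem_pow hf 5)]
        exact Q.zero_mem
      exact hprime.mem_of_pow_mem _ h5
    let s : Set (Fin 8) := {i | X i ∈ Ideal.comap mk Q ∧ i ≠ 4}
    have hker : RingHom.ker (kl K s) ≤ Ideal.comap mk Q := ker_le K s _ (fun i hi => hi.1)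
    have hIker : I ≤ RingHom.ker (kl K s) := by
      show wideal K G ω ≤ _
      rw [wideal, Ideal.span_le]
      rintro f ⟨u, v, huv, rfl⟩
      have hw : ω s(u, v) ≠ 0 := huv
      have h6 := hIP (Ideal.subset_span ⟨u, v, huv, rfl⟩)
      have h7 := hprime.mem_or_mem (hprime.mem_of_pow_mem _ h6)
      have key : u ∈ s ∨ v ∈ s := by
        by_cases hu : u = 4
        · subst hu
          right
          have hv : v = 0 := nbr4 v huv
          subst hv
          exact ⟨h0, by decide⟩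
        · by_cases hv : v = 4
          · subst hv
            left
            have hu : u = 0 := nbr4' u huv
            subst hu
            exact ⟨h0, by decide⟩
          · rcases h7 with h7 | h7
            · exact Or.inl ⟨h7, hu⟩
            · exact Or.inr ⟨h7, hv⟩
      rw [SetLike.mem_coe, RingHom.mem_ker, map_pow, map_mul]
      have h8 : kl K s (X u) * kl K s (X v) = 0 := by
        rcases key with hk | hk
        · rw [show kl K s (X u) = 0 by simp [kl, hk], zero_mul]
        · rw [show kl K s (X v) = 0 by simp [kl, hk], mul_zero]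
      rw [h8, zero_pow hw]
    have hI5 : I ^ 5 ≤ RingHom.ker (kl K s) := (Ideal.pow_le_self (by norm_num)).trans hIker
    have hkp : (RingHom.ker (kl K s)).IsPrime := RingHom.ker_isPrime _
    have hsurj : Function.Surjective mk := Ideal.Quotient.mk_surjective
    refine ⟨Ideal.map mk (RingHom.ker (kl K s)), ?_, ?_⟩
    · apply Ideal.map_isPrime_of_surjective hsurj
      have hk : RingHom.ker mk = I ^ 5 := Ideal.mk_ker
      rw [hk]
      exact hI5
    · refine lt_of_le_of_ne (Ideal.map_le_iff_le_comap.2 hker) ?_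
      intro heq
      rw [← heq, Ideal.mem_map_iff_of_surjective _ hsurj] at h4
      obtain ⟨z, hz, hz2⟩ := h4
      have h9 : z - X 4 ∈ RingHom.ker (kl K s) := hI5 (Ideal.Quotient.eq.1 hz2)
      have h10 : (X 4 : MvPolynomial (Fin 8) K) ∈ RingHom.ker (kl K s) := by
        have := Ideal.sub_mem _ hz h9
        simpa using this
      rw [RingHom.mem_ker] at h10
      have h11 : (4 : Fin 8) ∉ s := fun h => h.2 rfl
      simp [kl, h11] at h10

end ideal

/-- **Disproof of Q1.** There is an admissible weighted tree `G_ω` (with eight vertices) such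
that for every field `K` the fifth power of its weighted edge ideal is not Cohen-Macaulay. -/
theorem result.{u} : ∃ (G : SimpleGraph (Fin 8)) (ω : Sym2 (Fin 8) → ℕ), Admissible G ω ∧
    ∀ (K : Type u) [Field K], ¬ IsCM (MvPolynomial (Fin 8) K ⧸ (wideal K G ω) ^ 5) :=
  ⟨G, ω, adm, fun K _ => notCM K⟩

end Pool.Agent.Results.MP_5c8d7a_al.NotCM
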